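import Pool.Agent.Q251.SV.Alm

/-!
# Almost prime values of quadratic polynomials in short intervals at almost all positions
-/

set_option autoImplicit false

namespace Pool.Agent.Q251.SV

open Finset Polynomial Filter Topology
open Pool.Agent.Y882.PX
open Pool.Agent.Y882.SI
open Pool.Agent.Y882.MG

/-- the number of the values of a quadratic polynomial divisible by the square of a large prime -/
theorem sq_Q3 (a b c : ℤ) (ha : a ≠ 0) (hD : b ^ 2 - 4 * a * c ≠ 0) (q : ℕ) (hq : q.Prime)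
    (hqa : a.natAbs < q) (hqD : (b ^ 2 - 4 * a * c).natAbs < q) (N H : ℕ) :
    ((((Icc 1 H).filter
      (fun j : ℕ => ((q ^ 2 : ℕ) : ℤ) ∣ (Q3 a b c).eval ((N + j : ℕ) : ℤ))).card : ℕ) : ℝ) ≤
      (2 : ℕ) * (H * (1 / (q : ℝ) ^ 2) + 1) := by
  classical
  have hqZ : Prime (q : ℤ) := Nat.prime_iff_prime_int.1 hq
  have hqna : ¬ (q : ℤ) ∣ a := by
    intro h
    have h12 : q ∣ a.natAbs := Int.natCast_dvd.1 h
    have := Nat.le_of_dvd (Int.natAbs_pos.2 ha) h12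
    omega
  have hqnD : ¬ (q : ℤ) ∣ b ^ 2 - 4 * a * c := by
    intro h
    have h12 := Int.natCast_dvd.1 h
    have := Nat.le_of_dvd (Int.natAbs_pos.2 hD) h12
    omega
  rcases ((Icc 1 H).filter (fun j : ℕ =>
    ((q ^ 2 : ℕ) : ℤ) ∣ (Q3 a b c).eval ((N + j : ℕ) : ℤ))).eq_empty_or_nonempty with h | ⟨j0, hj0⟩
  · rw [h]
    simp only [card_empty, Nat.cast_zero]
    positivity
  rw [mem_filter, Q3_eval] at hj0
  have hcop : IsCoprime a ((q ^ 2 : ℕ) : ℤ) := by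
    push_cast
    apply IsCoprime.pow_right
    exact ((Prime.coprime_iff_not_dvd hqZ).2 hqna).symm
  obtain ⟨u, v, huv⟩ := hcop
  -- the second class
  obtain ⟨e, he⟩ : ∃ e : ℤ, e = -(u * (a * (2 * N + j0) + b)) := ⟨_, rfl⟩
  have hsub : (Icc 1 H).filter (fun j : ℕ => ((q ^ 2 : ℕ) : ℤ) ∣ (Q3 a b c).eval ((N + j : ℕ) : ℤ)) ⊆
      (Icc 1 H).filter (fun n : ℕ => ((q ^ 2 : ℕ) : ℤ) ∣ (n : ℤ) - (j0 : ℤ)) ∪
      (Icc 1 H).filter (fun n : ℕ => ((q ^ 2 : ℕ) : ℤ) ∣ (n : ℤ) - e) := by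
    intro j hj
    rw [mem_filter, Q3_eval] at hj
    rw [mem_union, mem_filter, mem_filter]
    obtain ⟨n, hn⟩ : ∃ n : ℤ, n = ((N + j : ℕ) : ℤ) := ⟨_, rfl⟩
    obtain ⟨n0, hn0⟩ : ∃ n0 : ℤ, n0 = ((N + j0 : ℕ) : ℤ) := ⟨_, rfl⟩
    rw [← hn] at hj
    rw [← hn0] at hj0
    have e1 : (j : ℤ) - (j0 : ℤ) = n - n0 := by
      rw [hn, hn0]
      push_cast
      ring
    have e0 : (2 * N + j0 : ℤ) + j = n + n0 := by
      rw [hn, hn0]
      push_cast
      ring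
    rw [e1]
    have h3 : ((q ^ 2 : ℕ) : ℤ) ∣ (n - n0) * (a * (n + n0) + b) := by
      have := dvd_sub hj.2 hj0.2
      have e : a * n ^ 2 + b * n + c - (a * n0 ^ 2 + b * n0 + c) = (n - n0) * (a * (n + n0) + b) := by ring
      rwa [e] at this
    by_cases h4 : (q : ℤ) ∣ n - n0
    · have h5 : ¬ (q : ℤ) ∣ a * (n + n0) + b := by
        intro h6
        have h7 : (q : ℤ) ∣ 2 * a * n0 + b := by
          have := dvd_sub h6 (Dvd.dvd.mul_left h4 a)
          have e : a * (n + n0) + b - a * (n - n0) = 2 * a * n0 + b := by ring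
          rwa [e] at this
        have h9 : (q : ℤ) ∣ a * n0 ^ 2 + b * n0 + c := by
          refine dvd_trans ?_ hj0.2
          push_cast
          exact dvd_pow_self _ (by norm_num)
        apply hqnD
        have h10 := dvd_sub (Dvd.dvd.mul_right h7 (2 * a * n0 + b)) (Dvd.dvd.mul_left h9 (4 * a))
        have e : (2 * a * n0 + b) * (2 * a * n0 + b) - 4 * a * (a * n0 ^ 2 + b * n0 + c) =
          b ^ 2 - 4 * a * c := by ring
        rwa [e] at h10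
      left
      refine ⟨hj.1, ?_⟩
      have h6 : IsCoprime ((q ^ 2 : ℕ) : ℤ) (a * (n + n0) + b) := by
        push_cast
        apply IsCoprime.pow_left
        exact (Prime.coprime_iff_not_dvd hqZ).2 h5
      exact h6.dvd_of_dvd_mul_right h3
    · right
      refine ⟨hj.1, ?_⟩
      have h6 : IsCoprime ((q ^ 2 : ℕ) : ℤ) (n - n0) := by
        push_cast
        apply IsCoprime.pow_left
        exact (Prime.coprime_iff_not_dvd hqZ).2 h4
      have h7 := h6.dvd_of_dvd_mul_left h3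
      -- j - e = j + u (a (2 N + j0) + b)
      have h8 : (j : ℤ) - e = u * (a * (n + n0) + b) + v * ((q ^ 2 : ℕ) : ℤ) * j := by
        rw [he, ← e0]
        linear_combination -(j : ℤ) * huv
      rw [h8]
      exact dvd_add (Dvd.dvd.mul_left h7 u) (Dvd.dvd.mul_right (Dvd.intro_left v rfl) _)
  have hm : 0 < q ^ 2 := pow_pos hq.pos 2
  have c1 := class_count (q ^ 2) hm H (j0 : ℤ)
  have c2 := class_count (q ^ 2) hm H e
  have h3 : ((((Icc 1 H).filter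
      (fun j : ℕ => ((q ^ 2 : ℕ) : ℤ) ∣ (Q3 a b c).eval ((N + j : ℕ) : ℤ))).card : ℕ) : ℝ) ≤
      (((Icc 1 H).filter (fun n : ℕ => ((q ^ 2 : ℕ) : ℤ) ∣ (n : ℤ) - (j0 : ℤ))).card : ℝ) +
      (((Icc 1 H).filter (fun n : ℕ => ((q ^ 2 : ℕ) : ℤ) ∣ (n : ℤ) - e)).card : ℝ) := by
    exact_mod_cast (card_le_card hsub).trans (card_union_le _ _)
  refine h3.trans ((add_le_add c1 c2).trans (le_of_eq ?_))
  push_cast
  ring

theorem size_Q3 (a b c : ℤ) (n : ℕ) (hn : 1 ≤ n) :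
    (((Q3 a b c).eval (n : ℤ)).natAbs : ℝ) ≤ (|(a : ℝ)| + |(b : ℝ)| + |(c : ℝ)|) * (n : ℝ) ^ 2 := by
  rw [Q3_eval, Nat.cast_natAbs]
  push_cast
  have h1 : (1 : ℝ) ≤ n := by exact_mod_cast hn
  have h2 : (n : ℝ) ≤ (n : ℝ) ^ 2 := by nlinarith
  have h3 : (1 : ℝ) ≤ (n : ℝ) ^ 2 := by nlinarith
  calc |(a : ℝ) * (n : ℝ) ^ 2 + b * n + c| ≤ |(a : ℝ) * (n : ℝ) ^ 2 + b * n| + |(c : ℝ)| := abs_add_le _ _
    _ ≤ |(a : ℝ) * (n : ℝ) ^ 2| + |(b : ℝ) * n| + |(c : ℝ)| := by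
        have := abs_add_le ((a : ℝ) * (n : ℝ) ^ 2) (b * n)
        linarith
    _ = |(a : ℝ)| * (n : ℝ) ^ 2 + |(b : ℝ)| * n + |(c : ℝ)| := by
        rw [abs_mul, abs_mul, abs_of_nonneg (by positivity : (0 : ℝ) ≤ (n : ℝ) ^ 2),
          abs_of_nonneg (by positivity : (0 : ℝ) ≤ (n : ℝ))]
    _ ≤ |(a : ℝ)| * (n : ℝ) ^ 2 + |(b : ℝ)| * (n : ℝ) ^ 2 + |(c : ℝ)| * (n : ℝ) ^ 2 := by
        have u1 := mul_le_mul_of_nonneg_left h2 (abs_nonneg (b : ℝ))
        have u2 := mul_le_mul_of_nonneg_left h3 (abs_nonneg (c : ℝ))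
        linarith
    _ = _ := by ring

theorem ro_Q3_le (a b c : ℤ) (hρ : ∀ p : ℕ, p.Prime → ro (Q3 a b c) 0 p < p) (p : ℕ) (hp : p.Prime) :
    ro (Q3 a b c) 0 p ≤ 2 := by
  have : Fact p.Prime := ⟨hp⟩
  have : NeZero p := ⟨hp.ne_zero⟩
  by_cases h2 : p = 2
  · have := hρ p hp
    omega
  -- a nonzero polynomial modulo p, of degree at most two
  set F : (ZMod p)[X] := (Q3 a b c).map (Int.castRingHom (ZMod p)) with hF
  have hF0 : F ≠ 0 := by
    intro h0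
    have h1 := hρ p hp
    rw [ro_zmod] at h1
    have h3 : (univ : Finset (ZMod p)).filter
        (fun x => eval₂ (Int.castRingHom (ZMod p)) x (Q3 a b c) = 0) = univ := by
      rw [filter_eq_self]
      intro x _
      rw [eval₂_eq_eval_map, ← hF, h0, eval_zero]
    rw [h3, card_univ, ZMod.card] at h1
    omega
  rw [ro_zmod]
  have h4 : (univ : Finset (ZMod p)).filter
      (fun x => eval₂ (Int.castRingHom (ZMod p)) x (Q3 a b c) = 0) ⊆ F.roots.toFinset := by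
    intro x hx
    rw [mem_filter] at hx
    rw [Multiset.mem_toFinset, mem_roots hF0, IsRoot.def, hF, eval_map]
    exact hx.2
  refine (card_le_card h4).trans ((Multiset.toFinset_card_le _).trans ((card_roots' F).trans ?_))
  refine (natDegree_map_le).trans ?_
  unfold Q3
  exact natDegree_quadratic_le

/-- **Almost prime values of quadratic polynomials.** -/
theorem almostQ3 (a b c : ℤ) (ha : a ≠ 0) (hD : ¬ IsSquare (b ^ 2 - 4 * a * c))
    (hρ : ∀ p : ℕ, p.Prime → ro (Q3 a b c) 0 p < p) (r : ℕ) (t z : ℝ)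
    (hpar : (r = 5 ∧ 1 / 2 ≤ t ∧ z = 2 / 5 * t) ∨ (r = 4 ∧ 269 / 500 ≤ t ∧ z = t / 4) ∨
      (r = 3 ∧ 29 / 40 ≤ t ∧ z = t / 4)) (ht : t < 1) (h ε : ℝ) (hh : 0 < h) (h1 : h ≤ 1)
    (hε : 0 < ε) :
    ∃ δ : ℝ, 0 < δ ∧ ∀ᶠ X : ℕ in atTop,
      (((Finset.Icc 1 X).filter (fun N : ℕ =>
        ((gsetG (Q3 a b c) r ((X : ℝ) ^ z) N ⌊(X : ℝ) ^ h⌋₊).card : ℝ) <
          δ * (X : ℝ) ^ h / Real.log X)).card : ℝ) ≤
      (X : ℝ) ^ (2 * t - h + ε) := by
  have hD0 : b ^ 2 - 4 * a * c ≠ 0 := by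
    intro h0
    apply hD
    rw [h0]
    exact ⟨0, by ring⟩
  have hne : ∀ n : ℕ, 1 ≤ n → (Q3 a b c).eval (n : ℤ) ≠ 0 := by
    intro n _ h0
    apply hD
    rw [Q3_eval] at h0
    exact ⟨2 * a * n + b, by linear_combination (-4 * a) * h0⟩
  have hsqr : ∃ Q0 : ℕ, ∀ q : ℕ, q.Prime → Q0 ≤ q → ∀ N H : ℕ,
      ((((Icc 1 H).filter (fun j : ℕ => ((q ^ 2 : ℕ) : ℤ) ∣
        (Q3 a b c).eval ((N + j : ℕ) : ℤ))).card : ℕ) : ℝ) ≤
        (2 : ℕ) * (H * (1 / (q : ℝ) ^ 2) + 1) :=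
    ⟨a.natAbs + (b ^ 2 - 4 * a * c).natAbs + 1, fun q hq hQ N H =>
      sq_Q3 a b c ha hD0 q hq (by omega) (by omega) N H⟩
  have hsz : ∃ A : ℝ, ∀ n : ℕ, 1 ≤ n →
      (((Q3 a b c).eval (n : ℤ)).natAbs : ℝ) ≤ A * (n : ℝ) ^ 2 :=
    ⟨_, fun n hn => size_Q3 a b c n hn⟩
  have hmain := finAllG (Q3 a b c) (Q3_deg a b c ha) (cv_Q3 a b c ha hD) hρ 2
    (fun p hp => ro_Q3_le a b c hρ p hp) hsqr 2 hsz hne
  rcases hpar with ⟨rfl, ht0, rfl⟩ | ⟨rfl, ht0, rfl⟩ | ⟨rfl, ht0, rfl⟩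
  · have hc := Pool.Agent.Y882.KW.cond_B t (20 / 31) (by linarith) (by norm_num) (by norm_num)
    obtain ⟨δ, hδ, X0, H⟩ := hmain 5 t (2 / 5 * t) (9 / 10 * t) (20 / 31)
      (1001 / 500) (by linarith) (by linarith) (by linarith) ht (by linarith) (by linarith)
      (by linarith) (by norm_num) hc (by norm_num) (by
        have h3 : (1001 / 500 : ℝ) / (9 / 10 * t) ≤ 4449 / 1000 := by
          rw [div_le_iff₀ (by linarith)]
          linarith
        push_cast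
        norm_num at h3 ⊢
        linarith) h ε hh h1 hε
    exact ⟨δ, hδ, eventually_atTop.2 ⟨X0, fun X hX => H X hX⟩⟩
  · have hc := Pool.Agent.Y882.KW.cond_A t (8 / 9) (by linarith) (by norm_num) (by norm_num)
    obtain ⟨δ, hδ, X0, H⟩ := hmain 4 t (t / 4) (24 / 25 * t) (8 / 9)
      (2001 / 1000) (by linarith) (by linarith) (by linarith) ht (by linarith) (by linarith)
      (by linarith) (by norm_num) hc (by norm_num) (by
        have h3 : (2001 / 1000 : ℝ) / (24 / 25 * t) ≤ 3875 / 1000 := by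
          rw [div_le_iff₀ (by linarith)]
          linarith
        push_cast
        norm_num at h3 ⊢
        linarith) h ε hh h1 hε
    exact ⟨δ, hδ, eventually_atTop.2 ⟨X0, fun X hX => H X hX⟩⟩
  · have hc := Pool.Agent.Y882.KW.cond_A t (8 / 9) (by linarith) (by norm_num) (by norm_num)
    obtain ⟨δ, hδ, X0, H⟩ := hmain 3 t (t / 4) (24 / 25 * t) (8 / 9)
      (2001 / 1000) (by linarith) (by linarith) (by linarith) ht (by linarith) (by linarith)
      (by linarith) (by norm_num) hc (by norm_num) (by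
        have h3 : (2001 / 1000 : ℝ) / (24 / 25 * t) ≤ 2875 / 1000 := by
          rw [div_le_iff₀ (by linarith)]
          linarith
        push_cast
        norm_num at h3 ⊢
        linarith) h ε hh h1 hε
    exact ⟨δ, hδ, eventually_atTop.2 ⟨X0, fun X hX => H X hX⟩⟩

end Pool.Agent.Q251.SV
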