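import Pool.Agent.Q251.SV.Gen

/-!
# The linear sieve for the values of a polynomial at almost all positions
-/

set_option autoImplicit false

namespace Pool.Agent.Q251.SV

open Finset Polynomial Filter Topology
open Pool.Agent.W23.DC
open Pool.Agent.Y882.PX
open Pool.Agent.Y882.SI
open Pool.Agent.Y882.JR
open Pool.Agent.Y781.JR (fac_pos)

open Classical in
theorem finJRG (A0 : ℝ) (F f : ℝ → ℝ) (hSF : SF A0 F f) (G : ℤ[X]) (hG : 1 ≤ G.natDegree)
    (hCv : Cv G) (C : ℝ) (hC0 : 0 < C) (hR : Tendsto (RG G) atTop (𝓝 C))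
    (τ s h δ ε : ℝ) (hτ1 : 1 / 2 ≤ τ) (hτ : τ < 1) (hs : 1 ≤ s) (hh : 0 < h) (hh1 : h ≤ 1)
    (hδ : 0 < δ) (hε : 0 < ε) :
    ∀ᶠ X : ℕ in atTop, (((Icc 1 X).filter (fun N =>
      ¬ ((f s - δ) * ((X : ℝ) ^ h * densG G ((X : ℝ) ^ (τ / s))) ≤
          (roughG G ((X : ℝ) ^ (τ / s)) N ⌊(X : ℝ) ^ h⌋₊ : ℝ) ∧
        (roughG G ((X : ℝ) ^ (τ / s)) N ⌊(X : ℝ) ^ h⌋₊ : ℝ) ≤
          (F s + δ) * ((X : ℝ) ^ h * densG G ((X : ℝ) ^ (τ / s)))))).card : ℝ) ≤
      (X : ℝ) ^ (2 * τ - h + ε) := by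
  have hτ0 : 0 < τ := by linarith
  have hζ : 0 < τ / s := by positivity
  have hζτ : τ / s ≤ τ := div_le_self hτ0.le hs
  have hζ1 : τ / s ≤ 1 := by linarith
  have hsζ : τ / (τ / s) = s := by field_simp
  obtain ⟨ε₁, η, hε₁, hε₁ζ, hη, Y1, HE⟩ := engJR (KF G) A0 F f hSF τ (τ / s) (δ / 2) (ε / 2) hζ hζτ hτ
    (by linarith) (by linarith)
  rw [hsζ] at HE
  obtain ⟨Y2, HM⟩ := mer_gen G hCv ε₁ (τ / s) η hε₁ hζ1 hη
  obtain ⟨c, hc, hcd⟩ : ∃ c : ℝ, 0 < c ∧ c < C * Real.exp (-Real.eulerMascheroniConstant) / (τ / s) :=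
    ⟨C * Real.exp (-Real.eulerMascheroniConstant) / (τ / s) / 2, by positivity, by
      have : 0 < C * Real.exp (-Real.eulerMascheroniConstant) / (τ / s) := by positivity
      linarith⟩
  have evd := (densG_pow G C hR (τ / s) hζ).eventually_const_le hcd
  have ev1 : ∀ᶠ Y : ℕ in atTop, (4 : ℝ) ≤ (Y : ℝ) ^ (ε / 2) :=
    ((tendsto_rpow_atTop (by linarith)).comp tendsto_natCast_atTop_atTop).eventually_ge_atTop _
  have ev2 : ∀ᶠ Y : ℕ in atTop, 2 + (2 * (|f s| + F s + δ) / δ) ≤ (Y : ℝ) ^ h :=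
    ((tendsto_rpow_atTop hh).comp tendsto_natCast_atTop_atTop).eventually_ge_atTop _
  have ev3 : ∀ᶠ Y : ℕ in atTop, Real.log Y / c ≤ (Y : ℝ) ^ (ε / 2 / 32) := by
    have h1 := (isLittleO_log_rpow_atTop (show 0 < ε / 2 / 32 by linarith)).bound hc
    filter_upwards [tendsto_natCast_atTop_atTop.eventually h1, eventually_ge_atTop 1] with Y hY hY1
    have hY1r : (1 : ℝ) ≤ Y := by exact_mod_cast hY1
    rw [Real.norm_of_nonneg (Real.log_nonneg hY1r), Real.norm_of_nonneg (by positivity)] at hY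
    rw [div_le_iff₀ hc]
    linarith
  filter_upwards [ev1, ev2, ev3, evd, eventually_ge_atTop 3, eventually_ge_atTop Y1,
    eventually_ge_atTop Y2] with X e1 e2 e3 ed e5 hX1 hX2
  have hFs1 : 1 ≤ F s := hSF.F1 s hs
  have hXr : (3 : ℝ) ≤ X := by exact_mod_cast e5
  have hX0 : (0 : ℝ) < X := by linarith
  have hX1r : (1 : ℝ) ≤ X := by linarith
  have hlX : 0 < Real.log X := Real.log_pos (by linarith)
  set H : ℕ := ⌊(X : ℝ) ^ h⌋₊ with hH
  have hHle : (H : ℝ) ≤ (X : ℝ) ^ h := Nat.floor_le (by positivity)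
  have hHgt : (X : ℝ) ^ h - 1 < H := by
    have := Nat.lt_floor_add_one ((X : ℝ) ^ h)
    rw [← hH] at this
    linarith
  have hr0 : 0 ≤ 2 * (|f s| + F s + δ) / δ := by positivity
  have hHge : (X : ℝ) ^ h / 2 ≤ H := by linarith
  have hH1 : 1 ≤ H := by
    have : (1 : ℝ) < H := by linarith
    exact_mod_cast this.le
  have hHr : (0 : ℝ) < H := by exact_mod_cast hH1
  have hlo : c / Real.log X ≤ densG G ((X : ℝ) ^ (τ / s)) := by
    rw [div_le_iff₀ hlX]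
    exact ed
  have hVpos : 0 < densG G ((X : ℝ) ^ (τ / s)) := lt_of_lt_of_le (by positivity) hlo
  have hV : (X : ℝ) ^ (-(ε / 2 / 32)) ≤ vv G X (τ / s) := by
    rw [vv_eqG G X (by omega) _ hζ1]
    refine le_trans ?_ hlo
    rw [Real.rpow_neg hX0.le]
    have h6 := inv_anti₀ (show 0 < Real.log X / c by positivity) e3
    rwa [inv_div] at h6
  have hA := HE X hX1 G X H (fun p hp => ro_le G hG 0 p hp) (by omega) hV (HM X hX2)
  rw [vv_eqG G X (by omega) _ hζ1] at hA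
  set V : ℝ := densG G ((X : ℝ) ^ (τ / s)) with hVdef
  have hcmp : ∀ g : ℝ, |g| ≤ |f s| + F s → |g * ((X : ℝ) ^ h * V) - g * (H * V)| ≤
      δ / 2 * (H * V) := by
    intro g hg
    have h1 : g * ((X : ℝ) ^ h * V) - g * (H * V) = g * (((X : ℝ) ^ h - H) * V) := by ring
    rw [h1, abs_mul, abs_of_nonneg (mul_nonneg (by linarith) hVpos.le)]
    calc |g| * (((X : ℝ) ^ h - H) * V) ≤ (|f s| + F s) * (1 * V) := by
          apply mul_le_mul hg _ (mul_nonneg (by linarith) hVpos.le) (by positivity)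
          apply mul_le_mul_of_nonneg_right _ hVpos.le
          linarith
      _ ≤ δ / 2 * (H * V) := by
          have h2 : 2 * (|f s| + F s + δ) / δ ≤ H := by linarith
          rw [div_le_iff₀ hδ] at h2
          have h3 : (|f s| + F s) ≤ δ / 2 * H := by linarith
          calc (|f s| + F s) * (1 * V) = (|f s| + F s) * V := by ring
            _ ≤ (δ / 2 * H) * V := mul_le_mul_of_nonneg_right h3 hVpos.le
            _ = _ := by ring
  have hXh0 : (0 : ℝ) < (X : ℝ) ^ h := by positivity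
  have hsub : (Icc 1 X).filter (fun N =>
      ¬ ((f s - δ) * ((X : ℝ) ^ h * V) ≤ (roughG G ((X : ℝ) ^ (τ / s)) N H : ℝ) ∧
        (roughG G ((X : ℝ) ^ (τ / s)) N H : ℝ) ≤ (F s + δ) * ((X : ℝ) ^ h * V))) ⊆
      (Icc 1 X).filter (fun N => ¬ ((f s - δ / 2) * (H * V) ≤ rgh G X (τ / s) H N ∧
          rgh G X (τ / s) H N ≤ (F s + δ / 2) * (H * V))) := by
    intro N hN
    rw [mem_filter] at hN ⊢
    refine ⟨hN.1, ?_⟩
    intro hcon
    apply hN.2
    rw [rgh_eqG G X (by omega) _ hζ1] at hcon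
    have hHV : (H : ℝ) * V ≤ (X : ℝ) ^ h * V := mul_le_mul_of_nonneg_right hHle hVpos.le
    have hHV0 : 0 ≤ (H : ℝ) * V := by positivity
    constructor
    · refine le_trans ?_ hcon.1
      have h1 := hcmp (f s) (by linarith)
      have h2 := (abs_le.1 h1).2
      have h3 : (f s - δ) * ((X : ℝ) ^ h * V) = f s * ((X : ℝ) ^ h * V) - δ * ((X : ℝ) ^ h * V) := by
        ring
      have h4 : (f s - δ / 2) * (H * V) = f s * (H * V) - δ / 2 * (H * V) := by ring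
      have h5 : δ * (H * V) ≤ δ * ((X : ℝ) ^ h * V) := mul_le_mul_of_nonneg_left hHV hδ.le
      rw [h3, h4]
      linarith
    · refine hcon.2.trans ?_
      have h5 : (F s + δ / 2) * (H * V) ≤ (F s + δ / 2) * ((X : ℝ) ^ h * V) :=
        mul_le_mul_of_nonneg_left hHV (by linarith)
      refine h5.trans ?_
      apply mul_le_mul_of_nonneg_right _ (by positivity)
      linarith
  calc (((Icc 1 X).filter (fun N =>
      ¬ ((f s - δ) * ((X : ℝ) ^ h * V) ≤ (roughG G ((X : ℝ) ^ (τ / s)) N H : ℝ) ∧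
        (roughG G ((X : ℝ) ^ (τ / s)) N H : ℝ) ≤ (F s + δ) * ((X : ℝ) ^ h * V)))).card : ℝ) ≤ _ := by
        exact_mod_cast card_le_card hsub
    _ ≤ (X + (X : ℝ) ^ (2 * τ)) / H * (X : ℝ) ^ (ε / 2) := hA
    _ ≤ (2 * (X : ℝ) ^ (2 * τ)) / ((X : ℝ) ^ h / 2) * (X : ℝ) ^ (ε / 2) := by
        have u1 : (X : ℝ) ≤ (X : ℝ) ^ (2 * τ) := by
          calc (X : ℝ) = (X : ℝ) ^ (1 : ℝ) := (Real.rpow_one _).symm
            _ ≤ _ := Real.rpow_le_rpow_of_exponent_le hX1r (by linarith)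
        apply mul_le_mul_of_nonneg_right _ (by positivity)
        apply div_le_div₀ (by positivity) (by linarith) (by positivity) hHge
    _ = 4 * ((X : ℝ) ^ (2 * τ) / (X : ℝ) ^ h) * (X : ℝ) ^ (ε / 2) := by
        field_simp
        norm_num
    _ ≤ (X : ℝ) ^ (ε / 2) * ((X : ℝ) ^ (2 * τ) / (X : ℝ) ^ h) * (X : ℝ) ^ (ε / 2) := by
        gcongr
    _ = _ := by
        rw [← Real.rpow_sub hX0, ← Real.rpow_add hX0, ← Real.rpow_add hX0]
        congr 1
        ring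

end Pool.Agent.Q251.SV
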