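import Pool.Agent.Y882.JR.Lim
import Pool.Agent.Y781.JR.Dens
import Pool.Agent.W366.DC.SFX
import Pool.Agent.Y445.JRB.Buch

/-!
# The linear sieve for the values of a polynomial at almost all positions: local densities
-/

set_option autoImplicit false

namespace Pool.Agent.Q251.SV

open Finset Polynomial Filter Topology
open Pool.Agent.W23.DC
open Pool.Agent.Y882.PX
open Pool.Agent.Y882.SI
open Pool.Agent.Y882.JR
open Pool.Agent.W378.DC.TMP
open Pool.Agent.Y781.JR (GG GG_pos GG_le GG_mertens real_version fac_pos)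

/-- the sums of `(ρ(p) - 1) / p` converge -/
def Cv (G : ℤ[X]) : Prop := ∀ η : ℝ, 0 < η → ∃ A0 : ℕ, ∀ A B : ℕ, A0 ≤ A → A ≤ B →
  |∑ p ∈ (Ioc A B).filter Nat.Prime, ((ro G 0 p : ℝ) - 1) / p| ≤ η

/-- the condition of Mertens -/
theorem mer_gen (G : ℤ[X]) (hC : Cv G) (ε₁ υ η : ℝ) (hε : 0 < ε₁) (hυ : υ ≤ 1)
    (hη : 0 < η) : ∃ Y0 : ℕ, ∀ Y : ℕ, Y0 ≤ Y →
      Mer (pr Y ε₁ υ) (tt Y) (fun p => (ro G 0 p : ℝ) / p) ε₁ υ η := by
  classical
  obtain ⟨N1, hN1⟩ := Pool.Agent.W378.DC.MP ε₁ (η / 3) hε (by linarith)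
  obtain ⟨P0, hP0⟩ := hC (η / 3) (by linarith)
  have ev1 : ∀ᶠ Y : ℕ in atTop, (max (P0 : ℝ) (3 / η)) + 4 ≤ (Y : ℝ) ^ ε₁ :=
    ((tendsto_rpow_atTop hε).comp tendsto_natCast_atTop_atTop).eventually_ge_atTop _
  obtain ⟨Y1, hY1⟩ := eventually_atTop.1 (ev1.and (eventually_ge_atTop 3))
  refine ⟨max N1 Y1, fun Y hY => ?_⟩
  obtain ⟨e1, e4⟩ := hY1 Y ((le_max_right _ _).trans hY)
  have hYN1 : N1 ≤ Y := (le_max_left _ _).trans hY
  have hYr : (3 : ℝ) ≤ Y := by exact_mod_cast e4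
  have hY0 : (0 : ℝ) < Y := by linarith
  have hY1r : (1 : ℝ) < Y := by linarith
  intro u v hu huv hv
  have hv1 : v ≤ 1 := hv.trans hυ
  have hset : (pr Y ε₁ υ).filter (fun p => u ≤ tt Y p ∧ tt Y p < v) = pr Y u v := by
    ext p
    unfold pr
    rw [mem_filter, mem_filter, mem_filter]
    constructor
    · rintro ⟨⟨h1, h2, h3, h4⟩, h5, h6⟩
      exact ⟨h1, h2, h5, h6⟩
    · rintro ⟨h1, h2, h5, h6⟩
      exact ⟨⟨h1, h2, hu.trans h5, h6.trans_le hv⟩, h5, h6⟩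
  rw [hset]
  have m1 := hN1 Y hYN1 u v hu huv hv1
  rw [pr_eq (by omega) hv1] at m1 ⊢
  have hmono : (Y : ℝ) ^ u ≤ (Y : ℝ) ^ v := Real.rpow_le_rpow_of_exponent_le hY1r.le huv
  have hu' : (Y : ℝ) ^ ε₁ ≤ (Y : ℝ) ^ u := Real.rpow_le_rpow_of_exponent_le hY1r.le hu
  have hAB : ⌈(Y : ℝ) ^ u⌉₊ - 1 ≤ ⌈(Y : ℝ) ^ v⌉₊ - 1 := Nat.sub_le_sub_right (Nat.ceil_mono hmono) 1
  have hAl : (Y : ℝ) ^ ε₁ - 1 ≤ ((⌈(Y : ℝ) ^ u⌉₊ - 1 : ℕ) : ℝ) := by
    have h1 := Nat.le_ceil ((Y : ℝ) ^ u)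
    have h2 : 1 ≤ ⌈(Y : ℝ) ^ u⌉₊ := Nat.ceil_pos.2 (by positivity)
    rw [Nat.cast_sub h2]
    push_cast
    linarith
  set A := ⌈(Y : ℝ) ^ u⌉₊ - 1 with hA
  set B := ⌈(Y : ℝ) ^ v⌉₊ - 1 with hB
  have hAmax : max (P0 : ℝ) (3 / η) + 3 ≤ A := by linarith
  have hAP : P0 ≤ A := by
    have : (P0 : ℝ) ≤ A := by linarith [le_max_left (P0 : ℝ) (3 / η)]
    exact_mod_cast this
  have hAη : 3 / η ≤ A := by linarith [le_max_right (P0 : ℝ) (3 / η)]
  have hA2r : (3 : ℝ) ≤ A := by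
    have : (0 : ℝ) ≤ P0 := Nat.cast_nonneg _
    linarith [le_max_left (P0 : ℝ) (3 / η)]
  have hA2 : 3 ≤ A := by exact_mod_cast hA2r
  have m2 := shift_prime (A := A) (B := B) (by omega) hAB
  rw [Finset.sum_sub_distrib] at m2
  have m4 := hP0 A B hAP hAB
  have hsum : ∑ p ∈ (Ioc A B).filter Nat.Prime, (ro G 0 p : ℝ) / p =
      ∑ p ∈ (Ioc A B).filter Nat.Prime, 1 / (p : ℝ) +
        ∑ p ∈ (Ioc A B).filter Nat.Prime, ((ro G 0 p : ℝ) - 1) / p := by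
    rw [← sum_add_distrib]
    apply sum_congr rfl
    intro p _
    ring
  rw [hsum]
  have m5 : 1 / (A : ℝ) ≤ η / 3 := by
    rw [div_le_iff₀ (by linarith)]
    rw [div_le_iff₀ hη] at hAη
    linarith
  obtain ⟨a1, a2⟩ := abs_le.1 m1
  obtain ⟨a3, a4⟩ := abs_le.1 m4
  rw [abs_le]
  constructor <;> linarith [m2.1, m2.2]

/-- the quotients of the local factors -/
noncomputable def RG (G : ℤ[X]) (N : ℕ) : ℝ :=
  ∏ p ∈ (range N).filter Nat.Prime, (1 - (ro G 0 p : ℝ) / p) / (1 - 1 / (p : ℝ))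

/-- the density -/
noncomputable def densG (G : ℤ[X]) (z : ℝ) : ℝ :=
  ∏ p ∈ (range ⌈z⌉₊).filter Nat.Prime, (1 - (ro G 0 p : ℝ) / p)

theorem densG_eq (G : ℤ[X]) (z : ℝ) : densG G z = GG ⌈z⌉₊ * RG G ⌈z⌉₊ := by
  unfold densG GG RG
  rw [← prod_mul_distrib]
  refine prod_congr rfl (fun p hp => ?_)
  have h1 := (fac_pos p (mem_filter.1 hp).2).1.ne'
  rw [mul_div_cancel₀ _ h1]

lemma log_bd (x : ℝ) (h0 : 0 ≤ x) (h1 : x ≤ 1 / 2) : |Real.log (1 - x) + x| ≤ 2 * x ^ 2 := by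
  have h2 := Real.abs_log_sub_add_sum_range_le (x := x) (by rw [abs_of_nonneg h0]; linarith) 1
  simp only [Finset.sum_range_one, Nat.cast_zero, zero_add, pow_one, div_one] at h2
  rw [abs_of_nonneg h0] at h2
  rw [add_comm]
  refine h2.trans ?_
  rw [div_le_iff₀ (by linarith)]
  norm_num
  nlinarith [sq_nonneg x, pow_nonneg h0 2]

/-- the corrections are summable -/
noncomputable def er (G : ℤ[X]) (n : ℕ) : ℝ :=
  if n.Prime then Real.log ((1 - (ro G 0 n : ℝ) / n) / (1 - 1 / (n : ℝ))) + ((ro G 0 n : ℝ) - 1) / n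
  else 0

lemma er_summable (G : ℤ[X]) (hG : 1 ≤ G.natDegree) : Summable (er G) := by
  obtain ⟨K, hK⟩ : ∃ K : ℕ, K = KF G := ⟨_, rfl⟩
  have hb : Summable (fun n : ℕ => (2 * (K : ℝ) ^ 2 + 2) * (1 / (n : ℝ) ^ 2)) :=
    (Real.summable_one_div_nat_pow.2 (by norm_num)).mul_left _
  refine Summable.of_norm_bounded_eventually_nat hb ?_
  filter_upwards [eventually_ge_atTop (2 * K + 2)] with n hn
  unfold er
  split_ifs with hp
  · have hr : (ro G 0 n : ℝ) ≤ K := by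
      rw [hK]
      exact_mod_cast ro_le G hG 0 n hp
    have hnr : (2 * K + 2 : ℝ) ≤ n := by exact_mod_cast hn
    have hK0 : (0 : ℝ) ≤ K := Nat.cast_nonneg _
    have hn0 : (0 : ℝ) < n := by linarith
    have hr0 : (0 : ℝ) ≤ ro G 0 n := Nat.cast_nonneg _
    have hx1 : (ro G 0 n : ℝ) / n ≤ 1 / 2 := by
      rw [div_le_iff₀ hn0]
      linarith
    have hx2 : 1 / (n : ℝ) ≤ 1 / 2 := by
      rw [div_le_iff₀ hn0]
      linarith
    have e1 := log_bd _ (show 0 ≤ (ro G 0 n : ℝ) / n by positivity) hx1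
    have e2 := log_bd _ (show 0 ≤ 1 / (n : ℝ) by positivity) hx2
    have e3 : ((ro G 0 n : ℝ) / n) ^ 2 ≤ (K : ℝ) ^ 2 * (1 / (n : ℝ) ^ 2) := by
      rw [div_pow, mul_one_div]
      gcongr
    have e4 : (1 / (n : ℝ)) ^ 2 = 1 / (n : ℝ) ^ 2 := by rw [div_pow, one_pow]
    rw [Real.log_div (by linarith) (by linarith), Real.norm_eq_abs]
    have e5 : Real.log (1 - (ro G 0 n : ℝ) / n) - Real.log (1 - 1 / (n : ℝ)) +
        ((ro G 0 n : ℝ) - 1) / n = (Real.log (1 - (ro G 0 n : ℝ) / n) + (ro G 0 n : ℝ) / n) -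
        (Real.log (1 - 1 / (n : ℝ)) + 1 / (n : ℝ)) := by ring
    rw [e5]
    refine (abs_sub _ _).trans ?_
    rw [e4] at e2
    nlinarith
  · rw [norm_zero]
    positivity

/-- the quotients converge -/
theorem RG_conv (G : ℤ[X]) (hG : 1 ≤ G.natDegree) (hC : Cv G)
    (hρ : ∀ p : ℕ, p.Prime → ro G 0 p < p) : ∃ C : ℝ, 0 < C ∧ Tendsto (RG G) atTop (𝓝 C) := by
  classical
  -- the sums
  set S : ℕ → ℝ := fun N => ∑ p ∈ (range N).filter Nat.Prime, ((ro G 0 p : ℝ) - 1) / p with hS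
  obtain ⟨σ, hσ⟩ : ∃ σ : ℝ, Tendsto S atTop (𝓝 σ) := by
    apply cauchySeq_tendsto_of_complete
    rw [Metric.cauchySeq_iff']
    intro ε hε
    obtain ⟨A0, hA0⟩ := hC (ε / 2) (by linarith)
    refine ⟨A0 + 1, fun n hn => ?_⟩
    have h1 := hA0 A0 (n - 1) le_rfl (by omega)
    have h2 : S n - S (A0 + 1) = ∑ p ∈ (Ioc A0 (n - 1)).filter Nat.Prime, ((ro G 0 p : ℝ) - 1) / p := by
      rw [hS]
      simp only
      rw [sub_eq_iff_eq_add, ← sum_union]
      · congr 1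
        ext p
        simp only [mem_union, mem_filter, mem_Ioc, mem_range]
        constructor
        · rintro ⟨h3, h5⟩
          rcases le_or_gt p A0 with h' | h'
          · exact Or.inr ⟨by omega, h5⟩
          · exact Or.inl ⟨⟨h', by omega⟩, h5⟩
        · rintro (⟨⟨h3, h4⟩, h5⟩ | ⟨h3, h5⟩)
          · exact ⟨by omega, h5⟩
          · exact ⟨by omega, h5⟩
      · rw [disjoint_left]
        intro p hp hp'
        rw [mem_filter, mem_Ioc] at hp
        rw [mem_filter, mem_range] at hp'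
        omega
    rw [Real.dist_eq, h2]
    linarith
  have hE := (er_summable G hG).hasSum.tendsto_sum_nat
  refine ⟨Real.exp ((∑' n, er G n) - σ), Real.exp_pos _, ?_⟩
  have h1 := (Real.continuous_exp.tendsto _).comp (hE.sub hσ)
  refine h1.congr (fun N => ?_)
  simp only [Function.comp]
  have hpos : ∀ p ∈ (range N).filter Nat.Prime,
      0 < (1 - (ro G 0 p : ℝ) / p) / (1 - 1 / (p : ℝ)) := by
    intro p hp
    have hpp := (mem_filter.1 hp).2
    have hp0 : (0 : ℝ) < p := by exact_mod_cast hpp.pos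
    apply div_pos _ (fac_pos p hpp).1
    rw [sub_pos, div_lt_one hp0]
    exact_mod_cast hρ p hpp
  have h2 : ∑ n ∈ range N, er G n - S N = ∑ p ∈ (range N).filter Nat.Prime,
      Real.log ((1 - (ro G 0 p : ℝ) / p) / (1 - 1 / (p : ℝ))) := by
    rw [sub_eq_iff_eq_add, hS]
    simp only
    rw [← sum_add_distrib, sum_filter]
    apply sum_congr rfl
    intro n _
    unfold er
    rfl
  rw [h2, Real.exp_sum]
  unfold RG
  apply prod_congr rfl
  intro p hp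
  rw [Real.exp_log (hpos p hp)]

theorem densG_log (G : ℤ[X]) (C : ℝ) (hR : Tendsto (RG G) atTop (𝓝 C)) :
    Tendsto (fun z : ℝ => densG G z * Real.log z) atTop
      (𝓝 (C * Real.exp (-Real.eulerMascheroniConstant))) := by
  have h1 := real_version (fun N => GG (N + 1)) (fun N => (GG_pos _).le) (fun N => GG_le _) _ GG_mertens
  have h2 := (hR.comp (tendsto_nat_ceil_atTop (α := ℝ))).mul h1
  refine h2.congr' ?_
  filter_upwards [eventually_gt_atTop (0 : ℝ)] with z hz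
  have hc : 0 < ⌈z⌉₊ := Nat.ceil_pos.2 hz
  simp only [Function.comp]
  rw [densG_eq, Nat.sub_add_cancel hc]
  ring

/-- the density at a power of `X` -/
theorem densG_pow (G : ℤ[X]) (C : ℝ) (hR : Tendsto (RG G) atTop (𝓝 C)) (v : ℝ) (hv : 0 < v) :
    Tendsto (fun X : ℕ => densG G ((X : ℝ) ^ v) * Real.log X) atTop
      (𝓝 (C * Real.exp (-Real.eulerMascheroniConstant) / v)) := by
  have h1 := (densG_log G C hR).comp
    ((tendsto_rpow_atTop hv).comp (tendsto_natCast_atTop_atTop (R := ℝ)))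
  have h2 := h1.div_const v
  refine h2.congr' ?_
  filter_upwards [eventually_gt_atTop 0] with X hX
  have hX0 : (0 : ℝ) < X := by exact_mod_cast hX
  simp only [Function.comp]
  rw [Real.log_rpow hX0]
  field_simp

open Classical in
/-- the number of the `n` in `(N, N + H]` such that `G(n)` has no prime factor below `z` -/
noncomputable def roughG (G : ℤ[X]) (z : ℝ) (N H : ℕ) : ℕ :=
  ((Finset.Ioc N (N + H)).filter
    (fun n : ℕ => ∀ p : ℕ, p.Prime → (p : ℤ) ∣ G.eval (n : ℤ) → z ≤ p)).card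

theorem vv_eqG (G : ℤ[X]) (X : ℕ) (hX : 2 ≤ X) (ζ : ℝ) (hζ : ζ ≤ 1) :
    vv G X ζ = densG G ((X : ℝ) ^ ζ) := by
  unfold vv densG
  rw [PZ_eq X hX ζ hζ]

theorem rgh_eqG (G : ℤ[X]) (X : ℕ) (hX : 2 ≤ X) (ζ : ℝ) (hζ : ζ ≤ 1) (h N : ℕ) :
    rgh G X ζ h N = (roughG G ((X : ℝ) ^ ζ) N h : ℝ) := by
  classical
  unfold rgh roughG
  congr 1
  symm
  apply card_bij' (i := fun (n : ℕ) _ => n - N) (j := fun (j : ℕ) _ => N + j)
  · intro n hn
    rw [mem_filter, mem_Ioc] at hn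
    rw [mem_filter, mem_Icc]
    refine ⟨⟨by omega, by omega⟩, ?_⟩
    intro p hp hd
    rw [PZ_eq X hX ζ hζ, mem_filter, mem_range] at hp
    have h1 : N + (n - N) = n := by omega
    rw [h1] at hd
    have h2 := hn.2 p hp.2 (Int.natCast_dvd.2 hd)
    exact absurd (Nat.lt_ceil.1 hp.1) (not_lt.2 h2)
  · intro j hj
    rw [mem_filter, mem_Icc] at hj
    rw [mem_filter, mem_Ioc]
    refine ⟨⟨by omega, by omega⟩, ?_⟩
    intro p hp hd
    by_contra hlt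
    push Not at hlt
    refine hj.2 p ?_ ?_
    · rw [PZ_eq X hX ζ hζ, mem_filter, mem_range]
      exact ⟨Nat.lt_ceil.2 hlt, hp⟩
    · exact Int.natCast_dvd.1 hd
  · intro n hn
    rw [mem_filter, mem_Ioc] at hn
    show N + (n - N) = n
    omega
  · intro j _
    show N + j - N = j
    omega

end Pool.Agent.Q251.SV
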