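import Pool.Agent.Q251.SV.Fin

/-!
# The linear sieve for the values of a polynomial at almost all positions: the theorem
-/

set_option autoImplicit false

namespace Pool.Agent.Q251.SV

open Finset Polynomial Filter Topology
open Pool.Agent.W23.DC
open Pool.Agent.Y882.PX
open Pool.Agent.Y882.SI
open Pool.Agent.Y882.JR

/-- `F` and `f` are the upper and the lower function of the linear sieve. -/
structure SieveFunctions (F f : ℝ → ℝ) : Prop where
  contF : ContinuousOn F (Set.Ici 1)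
  contf : ContinuousOn f (Set.Ici 1)
  initF : ∀ s, 1 ≤ s → s ≤ 3 → F s = 2 * Real.exp Real.eulerMascheroniConstant / s
  initf : ∀ s, 1 ≤ s → s ≤ 2 → f s = 0
  nextf : ∀ s, 2 ≤ s → s ≤ 4 → f s = 2 * Real.exp Real.eulerMascheroniConstant * Real.log (s - 1) / s
  eqF : ∀ s, 3 ≤ s → s * F s = 2 * Real.exp Real.eulerMascheroniConstant + ∫ x in (3 : ℝ)..s, f (x - 1)
  eqf : ∀ s, 2 ≤ s → s * f s = ∫ x in (2 : ℝ)..s, F (x - 1)
  limF : Tendsto F atTop (𝓝 1)
  limf : Tendsto f atTop (𝓝 1)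

/-- the number of `N < n ≤ N + H` such that `|G(n)|` is a prime -/
def PG (G : ℤ[X]) (N H : ℕ) : ℕ :=
  #((Ioc N (N + H)).filter (fun n : ℕ => Nat.Prime (G.eval (n : ℤ)).natAbs))

/-- primes are rough or small -/
lemma prime_leG (G : ℤ[X]) (z : ℝ) (N H K : ℕ) (hK : ∀ n : ℕ, ((G.eval (n : ℤ)).natAbs : ℝ) < z → n ≤ K) :
    (PG G N H : ℝ) ≤ (roughG G z N H : ℝ) + #((Ioc N (N + H)).filter (fun n => n ≤ K)) := by
  classical
  have hsub : (Ioc N (N + H)).filter (fun n : ℕ => Nat.Prime (G.eval (n : ℤ)).natAbs) ⊆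
      (Ioc N (N + H)).filter (fun n : ℕ => ∀ p : ℕ, p.Prime → (p : ℤ) ∣ G.eval (n : ℤ) → z ≤ p) ∪
      (Ioc N (N + H)).filter (fun n => n ≤ K) := by
    intro n hn
    rw [mem_filter] at hn
    rw [mem_union, mem_filter, mem_filter]
    by_cases h : ((G.eval (n : ℤ)).natAbs : ℝ) < z
    · exact Or.inr ⟨hn.1, hK n h⟩
    · left
      refine ⟨hn.1, fun p hp hd => ?_⟩
      have h1 : p ∣ (G.eval (n : ℤ)).natAbs := Int.natCast_dvd.1 hd
      have h2 : p = (G.eval (n : ℤ)).natAbs := (Nat.prime_dvd_prime_iff_eq hp hn.2).1 h1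
      rw [h2]
      exact not_lt.1 h
  have h1 := (card_le_card hsub).trans (card_union_le _ _)
  unfold PG roughG
  exact_mod_cast h1

theorem main (G : ℤ[X]) (hG : 1 ≤ G.natDegree) (hCv : Cv G) (hρ : ∀ p : ℕ, p.Prime → ro G 0 p < p)
    (M : ℕ) (hM : ∀ n : ℕ, n ≤ M * ((G.eval (n : ℤ)).natAbs + 1)) :
    ∃ C : ℝ, 0 < C ∧ Tendsto (RG G) atTop (𝓝 C) ∧
    ∃ F f : ℝ → ℝ, SieveFunctions F f ∧
    ∀ θ τ s δ ε : ℝ, 0 < θ → θ ≤ 1 → 1 / 2 ≤ τ → τ < 1 → 1 ≤ s → 0 < δ → 0 < ε →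
    ∀ᶠ X : ℕ in atTop, ∃ Bad ⊆ Icc 1 X, (#Bad : ℝ) ≤ (X : ℝ) ^ (2 * τ - θ + ε) ∧
    ∀ N ∈ Icc 1 X, N ∉ Bad →
      (PG G N ⌊(X : ℝ) ^ θ⌋₊ : ℝ) ≤ (2 / τ + δ) * C * (X : ℝ) ^ θ / Real.log X ∧
      (f s - δ) * (Real.exp (-Real.eulerMascheroniConstant) * s / τ) * C * (X : ℝ) ^ θ / Real.log X ≤
        (roughG G ((X : ℝ) ^ (τ / s)) N ⌊(X : ℝ) ^ θ⌋₊ : ℝ) ∧
      (roughG G ((X : ℝ) ^ (τ / s)) N ⌊(X : ℝ) ^ θ⌋₊ : ℝ) ≤
        (F s + δ) * (Real.exp (-Real.eulerMascheroniConstant) * s / τ) * C * (X : ℝ) ^ θ /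
          Real.log X := by
  classical
  obtain ⟨A0, F, f, hSF⟩ := Pool.Agent.W366.DC.SFX
  have hA : A0 = 2 * Real.exp Real.eulerMascheroniConstant :=
    Pool.Agent.Y882.JR.A0_eq Pool.Agent.Y445.JRB.t hSF
  obtain ⟨C, hC, hR⟩ := RG_conv G hG hCv hρ
  refine ⟨C, hC, hR, F, f, ?_, ?_⟩
  · refine ⟨hSF.cF, hSF.cf, fun s h1 h3 => ?_, hSF.f2, fun s h2 h4 => ?_, fun s h3 => ?_, hSF.ef,
      Pool.Agent.Y882.JR.F_lim hSF, Pool.Agent.Y882.JR.f_lim hSF⟩
    · rw [hSF.F3 s h1 h3, hA]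
    · rw [hSF.f4 s h2 h4, hA]
    · rw [hSF.eF s h3, hA]
  intro θ τ s δ ε hθ0 hθ1 hτ0 hτ1 hs1 hδ hε
  have hτp : 0 < τ := by linarith
  have hγ0 : 0 < Real.exp Real.eulerMascheroniConstant := Real.exp_pos _
  have hγ1 : Real.exp Real.eulerMascheroniConstant * Real.exp (-Real.eulerMascheroniConstant) = 1 := by
    rw [← Real.exp_add, add_neg_cancel, Real.exp_zero]
  have hg0 : 0 < Real.exp (-Real.eulerMascheroniConstant) := Real.exp_pos _
  have hg1 : Real.exp (-Real.eulerMascheroniConstant) ≤ 1 := by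
    rw [← Real.exp_zero]
    apply Real.exp_le_exp.2
    have := Real.one_half_lt_eulerMascheroniConstant
    linarith
  set g := Real.exp (-Real.eulerMascheroniConstant) with hg
  set δ1 : ℝ := δ * τ / 16 with hδ1
  have hδ10 : 0 < δ1 := by positivity
  -- the sieve
  have J3 := finJRG A0 F f hSF G hG hCv C hC hR τ 3 θ δ1 (ε / 2) hτ0 hτ1 (by norm_num) hθ0 hθ1 hδ10
    (by linarith)
  have Js := finJRG A0 F f hSF G hG hCv C hC hR τ s θ δ1 (ε / 2) hτ0 hτ1 hs1 hθ0 hθ1 hδ10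
    (by linarith)
  -- the limits
  have L3 := (densG_pow G C hR (τ / 3) (by positivity)).const_mul (F 3 + δ1)
  have hs0 : 0 < s := by linarith
  have Ls := (densG_pow G C hR (τ / s) (by positivity)).const_mul (f s - δ1)
  have Lt := (densG_pow G C hR (τ / s) (by positivity)).const_mul (F s + δ1)
  have v3 : (F 3 + δ1) * (C * g / (τ / 3)) < (2 / τ + δ / 2) * C := by
    rw [hSF.F3 3 (by norm_num) le_rfl, hA]
    have e1 : (2 * Real.exp Real.eulerMascheroniConstant / 3 + δ1) * (C * g / (τ / 3)) =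
        (Real.exp Real.eulerMascheroniConstant * g) * (2 / τ) * C + 3 * δ1 / τ * g * C := by
      field_simp
    rw [e1, hγ1, one_mul]
    have e2 : 3 * δ1 / τ = 3 * δ / 16 := by rw [hδ1]; field_simp
    rw [e2]
    have : 3 * δ / 16 * g * C ≤ 3 * δ / 16 * 1 * C := by
      apply mul_le_mul_of_nonneg_right _ hC.le
      exact mul_le_mul_of_nonneg_left hg1 (by positivity)
    have hδC : 0 < δ * C := by positivity
    nlinarith
  have hδ1δ : δ1 < δ := by
    rw [hδ1]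
    nlinarith
  have hQ : 0 < g * s / τ * C := by positivity
  have eQ : C * g / (τ / s) = g * s / τ * C := by field_simp
  have vs : (f s - δ) * (g * s / τ) * C < (f s - δ1) * (C * g / (τ / s)) := by
    rw [eQ]
    nlinarith
  have vt : (F s + δ1) * (C * g / (τ / s)) < (F s + δ) * (g * s / τ) * C := by
    rw [eQ]
    nlinarith
  have E3 := L3.eventually_le_const v3
  have Es := Ls.eventually_const_le vs
  have Et := Lt.eventually_le_const vt
  -- sizes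
  have ev1 : ∀ᶠ X : ℕ in atTop, (3 : ℝ) ≤ (X : ℝ) ^ (ε / 2) :=
    ((tendsto_rpow_atTop (by linarith)).comp tendsto_natCast_atTop_atTop).eventually_ge_atTop _
  have ev2 : ∀ᶠ X : ℕ in atTop, 2 * ((M : ℝ) + 2) ≤ (X : ℝ) ^ (1 / 6 : ℝ) :=
    ((tendsto_rpow_atTop (by norm_num)).comp tendsto_natCast_atTop_atTop).eventually_ge_atTop _
  have hM1 : (0 : ℝ) ≤ M := Nat.cast_nonneg _
  have ev3 : ∀ᶠ X : ℕ in atTop, Real.log X ≤ δ * C / (4 * (M + 1)) * (X : ℝ) ^ (1 / 6 : ℝ) := by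
    have h1 := (isLittleO_log_rpow_atTop (show (0 : ℝ) < 1 / 6 by norm_num)).bound
      (show 0 < δ * C / (4 * (M + 1)) by positivity)
    filter_upwards [tendsto_natCast_atTop_atTop.eventually h1, eventually_ge_atTop 1] with Y hY hY1
    have hY1r : (1 : ℝ) ≤ Y := by exact_mod_cast hY1
    rw [Real.norm_of_nonneg (Real.log_nonneg hY1r), Real.norm_of_nonneg (by positivity)] at hY
    exact hY
  filter_upwards [J3, Js, E3, Es, Et, ev1, ev2, ev3, eventually_ge_atTop 3] with X j3 js l3 ls lt e1 e2 e3 e4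
  have hXr : (3 : ℝ) ≤ X := by exact_mod_cast e4
  have hX0 : (0 : ℝ) < X := by linarith
  have hX1 : (1 : ℝ) ≤ X := by linarith
  have hlX : 0 < Real.log X := Real.log_pos (by linarith)
  set H : ℕ := ⌊(X : ℝ) ^ θ⌋₊ with hH
  have hXθ : 0 < (X : ℝ) ^ θ := by positivity
  obtain ⟨y, hy⟩ : ∃ y : ℝ, y = (X : ℝ) ^ (1 / 6 : ℝ) := ⟨_, rfl⟩
  rw [← hy] at e2 e3
  have hy0 : 0 < y := by rw [hy]; positivity
  have hy4 : 4 ≤ y := by linarith
  have hX3 : (X : ℝ) ^ (1 / 3 : ℝ) = y * y := by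
    rw [hy, ← Real.rpow_add hX0]
    norm_num
  have hX2 : (X : ℝ) ^ (1 / 2 : ℝ) = y * y * y := by
    rw [hy, ← Real.rpow_add hX0, ← Real.rpow_add hX0]
    norm_num
  -- small arguments
  obtain ⟨K, hK⟩ : ∃ K : ℕ, K = M * (⌊(X : ℝ) ^ (1 / 3 : ℝ)⌋₊ + 1) := ⟨_, rfl⟩
  have hKX : (K : ℝ) ≤ 2 * M * (y * y) := by
    rw [hK]
    push_cast
    have h1 := Nat.floor_le (show (0 : ℝ) ≤ (X : ℝ) ^ (1 / 3 : ℝ) by positivity)
    rw [hX3] at h1
    have h2 : ((⌊(X : ℝ) ^ (1 / 3 : ℝ)⌋₊ : ℝ) + 1) ≤ 2 * (y * y) := by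
      rw [hX3]
      nlinarith
    calc (M : ℝ) * ((⌊(X : ℝ) ^ (1 / 3 : ℝ)⌋₊ : ℝ) + 1) ≤ M * (2 * (y * y)) :=
          mul_le_mul_of_nonneg_left h2 hM1
      _ = _ := by ring
  have hKsm : ∀ n : ℕ, ((G.eval (n : ℤ)).natAbs : ℝ) < (X : ℝ) ^ (τ / 3) → n ≤ K := by
    intro n hn
    have h1 : (X : ℝ) ^ (τ / 3) ≤ (X : ℝ) ^ (1 / 3 : ℝ) :=
      Real.rpow_le_rpow_of_exponent_le hX1 (by linarith)
    have h2 : (G.eval (n : ℤ)).natAbs ≤ ⌊(X : ℝ) ^ (1 / 3 : ℝ)⌋₊ := Nat.le_floor (hn.le.trans h1)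
    rw [hK]
    exact (hM n).trans (Nat.mul_le_mul_left _ (by omega))
  -- the bad set
  obtain ⟨B1, hB1⟩ : ∃ B1, B1 = (Icc 1 X).filter (fun N =>
      ¬ ((f 3 - δ1) * ((X : ℝ) ^ θ * densG G ((X : ℝ) ^ (τ / 3))) ≤
          (roughG G ((X : ℝ) ^ (τ / 3)) N ⌊(X : ℝ) ^ θ⌋₊ : ℝ) ∧
        (roughG G ((X : ℝ) ^ (τ / 3)) N ⌊(X : ℝ) ^ θ⌋₊ : ℝ) ≤
          (F 3 + δ1) * ((X : ℝ) ^ θ * densG G ((X : ℝ) ^ (τ / 3))))) := ⟨_, rfl⟩
  obtain ⟨B2, hB2⟩ : ∃ B2, B2 = (Icc 1 X).filter (fun N =>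
      ¬ ((f s - δ1) * ((X : ℝ) ^ θ * densG G ((X : ℝ) ^ (τ / s))) ≤
          (roughG G ((X : ℝ) ^ (τ / s)) N ⌊(X : ℝ) ^ θ⌋₊ : ℝ) ∧
        (roughG G ((X : ℝ) ^ (τ / s)) N ⌊(X : ℝ) ^ θ⌋₊ : ℝ) ≤
          (F s + δ1) * ((X : ℝ) ^ θ * densG G ((X : ℝ) ^ (τ / s))))) := ⟨_, rfl⟩
  obtain ⟨B3, hB3⟩ : ∃ B3, B3 = if θ ≤ 1 / 2 then (Icc 1 X).filter (fun N => N ≤ K) else ∅ := ⟨_, rfl⟩
  have hc1 : (#B1 : ℝ) ≤ (X : ℝ) ^ (2 * τ - θ + ε / 2) := by rw [hB1]; exact j3
  have hc2 : (#B2 : ℝ) ≤ (X : ℝ) ^ (2 * τ - θ + ε / 2) := by rw [hB2]; exact js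
  have hc3 : (#B3 : ℝ) ≤ (X : ℝ) ^ (2 * τ - θ + ε / 2) := by
    rw [hB3]
    split_ifs with hθ2
    · have h1 : #((Icc 1 X).filter (fun N => N ≤ K)) ≤ K := by
        calc #((Icc 1 X).filter (fun N => N ≤ K)) ≤ #(Icc 1 K) := by
              apply card_le_card
              intro N hN
              rw [mem_filter, mem_Icc] at hN
              exact mem_Icc.2 ⟨hN.1.1, hN.2⟩
          _ = K := by simp
      calc (#((Icc 1 X).filter (fun N => N ≤ K)) : ℝ) ≤ K := by exact_mod_cast h1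
        _ ≤ 2 * M * (y * y) := hKX
        _ ≤ y * (y * y) := by
            apply mul_le_mul_of_nonneg_right _ (by positivity)
            linarith
        _ = (X : ℝ) ^ (1 / 2 : ℝ) := by rw [hX2]; ring
        _ ≤ (X : ℝ) ^ (2 * τ - θ + ε / 2) := Real.rpow_le_rpow_of_exponent_le hX1 (by linarith)
    · simp only [card_empty, Nat.cast_zero]
      positivity
  refine ⟨B1 ∪ B2 ∪ B3, ?_, ?_, ?_⟩
  · intro N hN
    rw [mem_union, mem_union, hB1, hB2, hB3] at hN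
    rcases hN with (hN | hN) | hN
    · exact (mem_filter.1 hN).1
    · exact (mem_filter.1 hN).1
    · split_ifs at hN with h
      · exact (mem_filter.1 hN).1
      · exact absurd hN (notMem_empty _)
  · have h1 : #(B1 ∪ B2 ∪ B3) ≤ #B1 + #B2 + #B3 :=
      (card_union_le _ _).trans (Nat.add_le_add_right (card_union_le _ _) _)
    have h2 : (#(B1 ∪ B2 ∪ B3) : ℝ) ≤ #B1 + #B2 + #B3 := by exact_mod_cast h1
    calc (#(B1 ∪ B2 ∪ B3) : ℝ) ≤ 3 * (X : ℝ) ^ (2 * τ - θ + ε / 2) := by linarith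
      _ ≤ (X : ℝ) ^ (ε / 2) * (X : ℝ) ^ (2 * τ - θ + ε / 2) :=
          mul_le_mul_of_nonneg_right e1 (by positivity)
      _ = (X : ℝ) ^ (2 * τ - θ + ε) := by
          rw [← Real.rpow_add hX0]
          congr 1
          ring
  · intro N hN hNB
    rw [mem_union, mem_union, not_or, not_or] at hNB
    obtain ⟨⟨n1, n2⟩, n3⟩ := hNB
    have hD : 0 < (X : ℝ) ^ θ / Real.log X := by positivity
    -- upper bound for the rough values
    have hup : (roughG G ((X : ℝ) ^ (τ / 3)) N H : ℝ) ≤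
        (2 / τ + δ / 2) * C * ((X : ℝ) ^ θ / Real.log X) := by
      have h1 : (roughG G ((X : ℝ) ^ (τ / 3)) N ⌊(X : ℝ) ^ θ⌋₊ : ℝ) ≤
          (F 3 + δ1) * ((X : ℝ) ^ θ * densG G ((X : ℝ) ^ (τ / 3))) := by
        by_contra hcon
        apply n1
        rw [hB1, mem_filter]
        exact ⟨hN, fun hh => hcon hh.2⟩
      have h2 : (F 3 + δ1) * ((X : ℝ) ^ θ * densG G ((X : ℝ) ^ (τ / 3))) =
          ((F 3 + δ1) * (densG G ((X : ℝ) ^ (τ / 3)) * Real.log X)) *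
            ((X : ℝ) ^ θ / Real.log X) := by
        field_simp
      rw [h2] at h1
      exact h1.trans (mul_le_mul_of_nonneg_right l3 hD.le)
    have h12 : (f s - δ1) * ((X : ℝ) ^ θ * densG G ((X : ℝ) ^ (τ / s))) ≤
          (roughG G ((X : ℝ) ^ (τ / s)) N ⌊(X : ℝ) ^ θ⌋₊ : ℝ) ∧
        (roughG G ((X : ℝ) ^ (τ / s)) N ⌊(X : ℝ) ^ θ⌋₊ : ℝ) ≤
          (F s + δ1) * ((X : ℝ) ^ θ * densG G ((X : ℝ) ^ (τ / s))) := by
      by_contra hcon
      apply n2
      rw [hB2, mem_filter]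
      exact ⟨hN, hcon⟩
    have hlow : (f s - δ) * (g * s / τ) * C * ((X : ℝ) ^ θ / Real.log X) ≤
        (roughG G ((X : ℝ) ^ (τ / s)) N H : ℝ) := by
      have h1 := h12.1
      have h2 : (f s - δ1) * ((X : ℝ) ^ θ * densG G ((X : ℝ) ^ (τ / s))) =
          ((f s - δ1) * (densG G ((X : ℝ) ^ (τ / s)) * Real.log X)) *
            ((X : ℝ) ^ θ / Real.log X) := by
        field_simp
      rw [h2] at h1
      exact (mul_le_mul_of_nonneg_right ls hD.le).trans h1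
    have hupp : (roughG G ((X : ℝ) ^ (τ / s)) N H : ℝ) ≤
        (F s + δ) * (g * s / τ) * C * ((X : ℝ) ^ θ / Real.log X) := by
      have h1 := h12.2
      have h2 : (F s + δ1) * ((X : ℝ) ^ θ * densG G ((X : ℝ) ^ (τ / s))) =
          ((F s + δ1) * (densG G ((X : ℝ) ^ (τ / s)) * Real.log X)) *
            ((X : ℝ) ^ θ / Real.log X) := by
        field_simp
      rw [h2] at h1
      exact h1.trans (mul_le_mul_of_nonneg_right lt hD.le)
    have e5 : ∀ κ : ℝ, κ * C * (X : ℝ) ^ θ / Real.log X = κ * C * ((X : ℝ) ^ θ / Real.log X) := by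
      intro κ
      ring
    have hδC : 0 < δ * C := by positivity
    refine ⟨?_, ?_, ?_⟩
    · rw [e5]
      have h1 := prime_leG G ((X : ℝ) ^ (τ / 3)) N H K hKsm
      have h2 : (#((Ioc N (N + H)).filter (fun n => n ≤ K)) : ℝ) ≤ δ / 2 * C * ((X : ℝ) ^ θ / Real.log X) := by
        by_cases hθ2 : θ ≤ 1 / 2
        · have h3 : (Ioc N (N + H)).filter (fun n => n ≤ K) = ∅ := by
            rw [filter_eq_empty_iff]
            intro n hn hnK
            rw [mem_Ioc] at hn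
            apply n3
            rw [hB3, if_pos hθ2, mem_filter]
            exact ⟨hN, by omega⟩
          rw [h3, card_empty, Nat.cast_zero]
          positivity
        · push Not at hθ2
          have h3 : #((Ioc N (N + H)).filter (fun n => n ≤ K)) ≤ K := by
            calc #((Ioc N (N + H)).filter (fun n => n ≤ K)) ≤ #(Icc 1 K) := by
                  apply card_le_card
                  intro n hn
                  rw [mem_filter, mem_Ioc] at hn
                  exact mem_Icc.2 ⟨by omega, hn.2⟩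
              _ = K := by simp
          have h5 : (X : ℝ) ^ (1 / 2 : ℝ) ≤ (X : ℝ) ^ θ :=
            Real.rpow_le_rpow_of_exponent_le hX1 hθ2.le
          have h7 : (K : ℝ) * Real.log X ≤ δ / 2 * C * (X : ℝ) ^ θ := by
            calc (K : ℝ) * Real.log X ≤ (2 * M * (y * y)) * (δ * C / (4 * (M + 1)) * y) :=
                  mul_le_mul hKX e3 hlX.le (by positivity)
              _ = (M / (M + 1)) * (δ / 2 * C * (y * y * y)) := by
                  field_simp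
                  ring
              _ ≤ 1 * (δ / 2 * C * (y * y * y)) := by
                  apply mul_le_mul_of_nonneg_right _ (by positivity)
                  rw [div_le_one (by positivity)]
                  linarith
              _ ≤ δ / 2 * C * (X : ℝ) ^ θ := by
                  rw [one_mul]
                  apply mul_le_mul_of_nonneg_left _ (by positivity)
                  rw [← hX2]
                  exact h5
          calc (#((Ioc N (N + H)).filter (fun n => n ≤ K)) : ℝ) ≤ K := by exact_mod_cast h3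
            _ ≤ δ / 2 * C * (X : ℝ) ^ θ / Real.log X := by
                rw [le_div_iff₀ hlX]
                exact h7
            _ = _ := by ring
      calc (PG G N H : ℝ) ≤ _ := h1
        _ ≤ (2 / τ + δ / 2) * C * ((X : ℝ) ^ θ / Real.log X) + δ / 2 * C * ((X : ℝ) ^ θ / Real.log X) :=
            add_le_add hup h2
        _ = _ := by ring
    · rw [e5]
      exact hlow
    · rw [e5]
      exact hupp

end Pool.Agent.Q251.SV
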