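import Pool.Agent.Q251.SV.Main

/-!
# The convergence of the local densities of quadratic polynomials
-/

set_option autoImplicit false

namespace Pool.Agent.Q251.SV

open Finset Polynomial Filter Topology
open Pool.Agent.Y882.PX
open Pool.Agent.Y882.SI
open Pool.Agent.H300R2.EC (Sd)
open Pool.Agent.Y781.JR (SS FF SS_bd FF_tend)

theorem cv_QF (a : ℤ) (ha : ¬ IsSquare (-a)) : Cv (QF a) := by
  intro η hη
  obtain ⟨P0, -, hP0⟩ := dyad (-a) ha
  obtain ⟨P1, hP1⟩ := eventually_atTop.1 (FF_tend.eventually (ge_mem_nhds hη))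
  refine ⟨max (max P0 3) P1, fun A B hA hAB => ?_⟩
  have hA3 : max P0 3 ≤ A := (le_max_left _ _).trans hA
  have h3 : 3 ≤ A := (le_max_right _ _).trans hA3
  have h1 := SS_bd (fun n => (jacobiSym (-a) n : ℝ)) P0 (fun P Q hP hPQ hQ => by
    have := hP0 1 P Q hP hPQ (by rw [pow_one]; exact hQ)
    rw [Nat.cast_one] at this
    exact this) (Nat.clog 2 B) A B hA3 hAB (by
      calc B ≤ 2 ^ (Nat.clog 2 B) := Nat.le_pow_clog (by norm_num) B
        _ ≤ 2 ^ (Nat.clog 2 B) * A := Nat.le_mul_of_pos_right _ (by omega))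
  have h2 : ∑ p ∈ (Ioc A B).filter Nat.Prime, ((ro (QF a) 0 p : ℝ) - 1) / p =
      Pool.Agent.Y781.JR.SS (fun n => (jacobiSym (-a) n : ℝ)) A B := by
    unfold Pool.Agent.Y781.JR.SS
    have h4 : (Ioc A B).filter (fun p : ℕ => p.Prime ∧ p ≠ 2) = (Ioc A B).filter Nat.Prime := by
      apply filter_congr
      intro p hp
      rw [mem_Ioc] at hp
      constructor
      · exact fun h => h.1
      · exact fun h => ⟨h, by omega⟩
    rw [h4]
    apply sum_congr rfl
    intro p hp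
    rw [mem_filter, mem_Ioc] at hp
    have h5 := ro_quad a p hp.2 (by omega)
    have h6 : (ro (QF a) 0 p : ℝ) = 1 + (jacobiSym (-a) p : ℝ) := by exact_mod_cast h5
    rw [h6]
    ring
  rw [h2]
  exact h1.trans (hP1 A ((le_max_right _ _).trans hA))

/-- roots in the field of residues -/
theorem ro_zmod (G : ℤ[X]) (p : ℕ) [NeZero p] :
    ro G 0 p = #((univ : Finset (ZMod p)).filter
      (fun x => eval₂ (Int.castRingHom (ZMod p)) x G = 0)) := by
  rw [ro_eq]
  have key : ∀ n : ℕ, ((p : ℤ) ∣ G.eval (n : ℤ) + 0) ↔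
      eval₂ (Int.castRingHom (ZMod p)) (n : ZMod p) G = 0 := by
    intro n
    rw [add_zero, ← ZMod.intCast_zmod_eq_zero_iff_dvd]
    have h1 := Polynomial.eval₂_at_apply (p := G) (Int.castRingHom (ZMod p)) (n : ℤ)
    simp only [eq_intCast, Int.cast_natCast] at h1
    rw [← h1]
  apply card_bij' (i := fun (n : ℕ) _ => (n : ZMod p)) (j := fun (x : ZMod p) _ => x.val)
  · intro n hn
    rw [mem_filter, mem_range] at hn
    rw [mem_filter]
    exact ⟨mem_univ _, (key n).1 hn.2⟩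
  · intro x hx
    rw [mem_filter] at hx
    rw [mem_filter, mem_range]
    refine ⟨ZMod.val_lt x, (key _).2 ?_⟩
    rw [ZMod.natCast_zmod_val]
    exact hx.2
  · intro n hn
    rw [mem_filter, mem_range] at hn
    exact ZMod.val_cast_of_lt hn.1
  · intro x _
    exact ZMod.natCast_zmod_val x

/-- the quadratic polynomial with given coefficients -/
noncomputable def Q3 (a b c : ℤ) : ℤ[X] := C a * X ^ 2 + C b * X + C c

theorem Q3_eval (a b c n : ℤ) : (Q3 a b c).eval n = a * n ^ 2 + b * n + c := by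
  unfold Q3
  simp

lemma e2_Q3 (a b c : ℤ) (p : ℕ) (x : ZMod p) :
    eval₂ (Int.castRingHom (ZMod p)) x (Q3 a b c) = a * x ^ 2 + b * x + c := by
  unfold Q3
  rw [eval₂_add, eval₂_add, eval₂_mul, eval₂_mul, eval₂_C, eval₂_C, eval₂_C, eval₂_X_pow, eval₂_X]
  simp only [eq_intCast]

lemma e2_QF (a : ℤ) (p : ℕ) (x : ZMod p) :
    eval₂ (Int.castRingHom (ZMod p)) x (QF a) = x ^ 2 + a := by
  unfold QF
  rw [eval₂_add, eval₂_C, eval₂_X_pow]
  simp only [eq_intCast]

theorem ro_Q3 (a b c : ℤ) (p : ℕ) (hp : p.Prime) (h : ¬ (p : ℤ) ∣ 2 * a) :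
    ro (Q3 a b c) 0 p = ro (QF (4 * a * c - b ^ 2)) 0 p := by
  have : Fact p.Prime := ⟨hp⟩
  have : NeZero p := ⟨hp.ne_zero⟩
  have h2a : (2 * a : ZMod p) ≠ 0 := by
    intro h0
    apply h
    rw [← ZMod.intCast_zmod_eq_zero_iff_dvd]
    push_cast
    exact h0
  rw [ro_zmod, ro_zmod]
  apply card_bij' (i := fun (x : ZMod p) _ => 2 * a * x + b)
    (j := fun (y : ZMod p) _ => (y - b) / (2 * a))
  · intro x hx
    rw [mem_filter, e2_Q3] at hx
    rw [mem_filter, e2_QF]
    refine ⟨mem_univ _, ?_⟩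
    have h1 := hx.2
    push_cast
    linear_combination 4 * (a : ZMod p) * h1
  · intro y hy
    rw [mem_filter, e2_QF] at hy
    rw [mem_filter, e2_Q3]
    refine ⟨mem_univ _, ?_⟩
    have h1 := hy.2
    push_cast at h1
    have h3 : (4 * a : ZMod p) ≠ 0 := by
      intro h0
      have h4 : (2 * a : ZMod p) * 2 = 0 := by linear_combination h0
      rcases mul_eq_zero.1 h4 with h5 | h5
      · exact h2a h5
      · apply h2a
        rw [h5, zero_mul]
    apply mul_left_cancel₀ h3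
    rw [mul_zero]
    obtain ⟨w, hw⟩ : ∃ w : ZMod p, w = (y - b) / (2 * a) := ⟨_, rfl⟩
    rw [← hw]
    have h6 : (2 * a : ZMod p) * w = y - b := by
      rw [hw]
      exact mul_div_cancel₀ _ h2a
    linear_combination h1 + (2 * a * w + y + b) * h6
  · intro x _
    rw [add_sub_cancel_right, mul_div_cancel_left₀ _ h2a]
  · intro y _
    rw [mul_div_cancel₀ _ h2a, sub_add_cancel]

theorem Q3_deg (a b c : ℤ) (ha : a ≠ 0) : 1 ≤ (Q3 a b c).natDegree := by
  unfold Q3
  rw [Polynomial.natDegree_quadratic ha]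
  norm_num

theorem cv_Q3 (a b c : ℤ) (ha : a ≠ 0) (hD : ¬ IsSquare (b ^ 2 - 4 * a * c)) : Cv (Q3 a b c) := by
  have h1 := cv_QF (4 * a * c - b ^ 2) (by rwa [neg_sub])
  intro η hη
  obtain ⟨A0, hA0⟩ := h1 η hη
  refine ⟨max A0 (2 * a).natAbs, fun A B hA hAB => ?_⟩
  have h2 := hA0 A B ((le_max_left _ _).trans hA) hAB
  rw [sum_congr rfl]
  · exact h2
  · intro p hp
    rw [mem_filter, mem_Ioc] at hp
    rw [ro_Q3 a b c p hp.2]
    intro hd
    have h3 := Int.natAbs_dvd_natAbs.2 hd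
    rw [Int.natAbs_natCast] at h3
    have h4 := Nat.le_of_dvd (Int.natAbs_pos.2 (by omega)) h3
    have h5 := (le_max_right A0 (2 * a).natAbs).trans hA
    omega

end Pool.Agent.Q251.SV
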